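import Pool.Agent.TH13.HHHDefs

/-!
# Coordinates of tensors
-/

set_option autoImplicit false
set_option linter.unusedSectionVars false

namespace Pool.Agent.TH13.HHH

open PiTensorProduct

variable {V : Type} [AddCommGroup V] [Module ℂ V]

section coord

variable {A : Type} [Fintype A] [DecidableEq A] {N : ℕ}

/-- the coordinate function of a tensor -/
noncomputable def co (b : Module.Basis (Fin N) ℂ V)
    (t : PiTensorProduct ℂ (fun _ : A => V)) : (A → Fin N) → ℂ :=
  fun I => (Basis.piTensorProduct (fun _ : A => b)).repr t I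

theorem co_tprod (b : Module.Basis (Fin N) ℂ V) (v : A → V) (I : A → Fin N) :
    co b (tprod ℂ v) I = ∏ a, b.repr (v a) (I a) := by
  simp [co]

theorem co_add (b : Module.Basis (Fin N) ℂ V) (s t : PiTensorProduct ℂ (fun _ : A => V)) :
    co b (s + t) = co b s + co b t := by
  funext I; simp [co]

theorem co_smul (b : Module.Basis (Fin N) ℂ V) (c : ℂ) (t : PiTensorProduct ℂ (fun _ : A => V)) :
    co b (c • t) = c • co b t := by
  funext I; simp [co]

theorem co_zero (b : Module.Basis (Fin N) ℂ V) :
    co b (0 : PiTensorProduct ℂ (fun _ : A => V)) = 0 := by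
  funext I; simp [co]

theorem co_sum (b : Module.Basis (Fin N) ℂ V) {κ : Type} (s : Finset κ)
    (f : κ → PiTensorProduct ℂ (fun _ : A => V)) :
    co b (∑ k ∈ s, f k) = ∑ k ∈ s, co b (f k) := by
  classical
  induction s using Finset.induction_on with
  | empty => simp [co_zero]
  | insert a s ha ih => rw [Finset.sum_insert ha, Finset.sum_insert ha, co_add, ih]

theorem co_injective (b : Module.Basis (Fin N) ℂ V) {s t : PiTensorProduct ℂ (fun _ : A => V)}
    (h : co b s = co b t) : s = t := by
  apply (Basis.piTensorProduct (fun _ : A => b)).repr.injective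
  ext I
  exact congrFun h I

/-- the tensor with given coordinates -/
noncomputable def ofCo (b : Module.Basis (Fin N) ℂ V) (c : (A → Fin N) → ℂ) :
    PiTensorProduct ℂ (fun _ : A => V) :=
  (Basis.piTensorProduct (fun _ : A => b)).equivFun.symm c

theorem co_ofCo (b : Module.Basis (Fin N) ℂ V) (c : (A → Fin N) → ℂ) : co b (ofCo b c) = c := by
  funext I
  have := congrFun ((Basis.piTensorProduct (fun _ : A => b)).equivFun.apply_symm_apply c) I
  simpa [co, ofCo] using this

/-- the action of a matrix on coordinate functions -/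
def act (G : Matrix (Fin N) (Fin N) ℂ) (c : (A → Fin N) → ℂ) : (A → Fin N) → ℂ :=
  fun I => ∑ J : A → Fin N, (∏ a, G (I a) (J a)) * c J

theorem co_map (b : Module.Basis (Fin N) ℂ V) (g : V →ₗ[ℂ] V)
    (t : PiTensorProduct ℂ (fun _ : A => V)) :
    co b (PiTensorProduct.map (fun _ => g) t) =
      act (fun i j => b.repr (g (b j)) i) (co b t) := by
  funext I
  have key : ((Basis.piTensorProduct (fun _ : A => b)).coord I) ∘ₗ
      PiTensorProduct.map (fun _ => g) =
      ∑ J : A → Fin N, (∏ a, b.repr (g (b (J a))) (I a)) •
        (Basis.piTensorProduct (fun _ : A => b)).coord J := by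
    apply PiTensorProduct.ext
    ext v
    simp only [LinearMap.compMultilinearMap_apply, LinearMap.comp_apply, map_tprod,
      Module.Basis.coord_apply, LinearMap.sum_apply, LinearMap.smul_apply, smul_eq_mul,
      Basis.piTensorProduct_repr_tprod_apply]
    have h1 : ∀ a, b.repr (g (v a)) (I a) = ∑ j, b.repr (g (b j)) (I a) * b.repr (v a) j := by
      intro a
      have h2 : g (v a) = ∑ j, b.repr (v a) j • g (b j) := by
        conv_lhs => rw [← b.sum_repr (v a)]
        rw [map_sum]
        exact Finset.sum_congr rfl fun j _ => map_smul _ _ _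
      rw [h2, map_sum, Finsupp.finsetSum_apply]
      refine Finset.sum_congr rfl fun j _ => ?_
      rw [map_smul, Finsupp.smul_apply, smul_eq_mul, mul_comm]
    rw [Finset.prod_congr rfl (fun a _ => h1 a), Finset.prod_univ_sum]
    simp only [Fintype.piFinset_univ, Finset.prod_mul_distrib]
  have := LinearMap.congr_fun key t
  simpa [co, act, LinearMap.sum_apply] using this

theorem co_reindex {B : Type} [Fintype B] [DecidableEq B] (b : Module.Basis (Fin N) ℂ V) (e : A ≃ B)
    (t : PiTensorProduct ℂ (fun _ : A => V)) (I : B → Fin N) :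
    co b (reindex ℂ (fun _ : A => V) e t) I = co b t (I ∘ e) := by
  have key : ((Basis.piTensorProduct (fun _ : B => b)).coord I) ∘ₗ
      (reindex ℂ (fun _ : A => V) e).toLinearMap =
        (Basis.piTensorProduct (fun _ : A => b)).coord (I ∘ e) := by
    apply PiTensorProduct.ext
    ext v
    simp only [LinearMap.compMultilinearMap_apply, LinearMap.comp_apply, LinearEquiv.coe_coe,
      Module.Basis.coord_apply, Basis.piTensorProduct_repr_tprod_apply, reindex_tprod]
    rw [← Equiv.prod_comp e]
    refine Finset.prod_congr rfl fun i _ => ?_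
    have h : ∀ j, j = i → (b.repr (v j)) (I (e i)) = (b.repr (v i)) ((I ∘ e) i) := by
      rintro j rfl; rfl
    exact h _ (e.symm_apply_apply i)
  exact LinearMap.congr_fun key t

end coord

end Pool.Agent.TH13.HHH
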