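import Mathlib

/-!
# The Hermite-Hadamard-Howe map: definitions
-/

set_option autoImplicit false

namespace Pool.Agent.TH13.HHH

open PiTensorProduct

/-- `V^{⊗ dn}`. The tensor factors are indexed by the pairs `(i, j)`; the factors
`(i, 0), …, (i, n - 1)` form the `i`-th of `d` blocks of `n` factors. -/
abbrev Ten (V : Type) [AddCommGroup V] [Module ℂ V] (d n : ℕ) : Type :=
  PiTensorProduct ℂ (fun _ : Fin d × Fin n => V)

variable {V : Type} [AddCommGroup V] [Module ℂ V]

/-- The permutation of the tensor factors of `V^{⊗ dn}` which moves the factor at the place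
`(i, j)` to the place `(π i, τ i j)`. -/
noncomputable def wr {d n : ℕ} (π : Equiv.Perm (Fin d)) (τ : Fin d → Equiv.Perm (Fin n)) :
    Ten V d n ≃ₗ[ℂ] Ten V d n :=
  reindex ℂ (fun _ : Fin d × Fin n => V) (Equiv.prodShear π τ)

/-- `S^d(S^n V) ⊆ V^{⊗ dn}`: the tensors which are symmetric in the `n` factors of each block
and symmetric under permutations of the `d` blocks. -/
def SdSn (V : Type) [AddCommGroup V] [Module ℂ V] (d n : ℕ) : Submodule ℂ (Ten V d n) where
  carrier := {t | ∀ (π : Equiv.Perm (Fin d)) (τ : Fin d → Equiv.Perm (Fin n)), wr π τ t = t}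
  zero_mem' := fun π τ => map_zero _
  add_mem' := fun {s t} hs ht π τ => by rw [map_add, hs π τ, ht π τ]
  smul_mem' := fun c t ht π τ => by rw [map_smul, ht π τ]

/-- Regrouping `V^{⊗ dn} = V^{⊗ nd}`: the `j`-th new block collects the `j`-th factor of each
of the `d` old blocks. -/
noncomputable def regroup (V : Type) [AddCommGroup V] [Module ℂ V] (d n : ℕ) :
    Ten V d n ≃ₗ[ℂ] Ten V n d :=
  reindex ℂ (fun _ : Fin d × Fin n => V) (Equiv.prodComm (Fin d) (Fin n))

/-- Symmetrization inside each of the `d` blocks of `n` factors. -/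
noncomputable def symInner (V : Type) [AddCommGroup V] [Module ℂ V] (d n : ℕ) :
    Ten V d n →ₗ[ℂ] Ten V d n :=
  (((n.factorial : ℂ) ^ d)⁻¹) • ∑ τ : Fin d → Equiv.Perm (Fin n), (wr 1 τ).toLinearMap

/-- Symmetrization over the `d` blocks. -/
noncomputable def symOuter (V : Type) [AddCommGroup V] [Module ℂ V] (d n : ℕ) :
    Ten V d n →ₗ[ℂ] Ten V d n :=
  ((d.factorial : ℂ)⁻¹) • ∑ π : Equiv.Perm (Fin d), (wr π (fun _ => 1)).toLinearMap

/-- The Hermite-Hadamard-Howe map `h_{d,n} : S^d(S^n V) → S^n(S^d V)` (defined on all of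
`V^{⊗ dn}`): regroup into `n` blocks of `d` factors, symmetrize inside each new block, then
symmetrize over the `n` new blocks. -/
noncomputable def hhh (V : Type) [AddCommGroup V] [Module ℂ V] (d n : ℕ) :
    Ten V d n →ₗ[ℂ] Ten V n d :=
  symOuter V n d ∘ₗ symInner V n d ∘ₗ (regroup V d n).toLinearMap

/-- The diagonal action of `g ∈ GL(V)` on `V^{⊗ dn}`. -/
noncomputable def glAct {d n : ℕ} (g : V ≃ₗ[ℂ] V) : Ten V d n →ₗ[ℂ] Ten V d n :=
  PiTensorProduct.map (fun _ => g.toLinearMap)

/-- `t` is a highest weight vector of weight `w` (or zero) for the Borel subgroup of `GL(V)` of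
the upper triangular automorphisms with respect to the ordered basis `b` of `V`: every
`g ∈ GL(V)` whose matrix `G` is upper triangular satisfies `g t = (∏ i, G i i ^ w i) t`. -/
def IsHighestWeight {d n N : ℕ} (b : Module.Basis (Fin N) ℂ V) (w : Fin N → ℕ) (t : Ten V d n) :
    Prop :=
  ∀ g : V ≃ₗ[ℂ] V, (∀ i j : Fin N, j < i → b.repr (g (b j)) i = 0) →
    glAct g t = (∏ i, b.repr (g (b i)) i ^ w i) • t

/-- The rectangular weight `(d^n) = (d, …, d, 0, …, 0)` with `n` parts equal to `d`. -/
def rect (d n N : ℕ) : Fin N → ℕ := fun i => if (i : ℕ) < n then d else 0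

/-- The `S_{(d^n)} V`-isotypic component of the `GL(V)`-module `S^d(S^n V)`: the `GL(V)`-submodule
generated by the highest weight vectors of weight `(d^n)` in `S^d(S^n V)`. -/
noncomputable def rectComponent {N : ℕ} (b : Module.Basis (Fin N) ℂ V) (d n : ℕ) :
    Submodule ℂ (Ten V d n) :=
  Submodule.span ℂ {x | ∃ (g : V ≃ₗ[ℂ] V) (t : Ten V d n),
    t ∈ SdSn V d n ∧ IsHighestWeight b (rect d n N) t ∧ x = glAct g t}

end Pool.Agent.TH13.HHH
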