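import Pool.Agent.TH13.HHHKill

/-!
# Highest weight vectors of weight `(d^n)` in `S^d(S^n V)` from products of brackets
-/

set_option autoImplicit false

namespace Pool.Agent.TH13.HHH

open PiTensorProduct

variable {V : Type} [AddCommGroup V] [Module ℂ V] {d n N : ℕ}

/-- the coordinates of `b 0 ∧ … ∧ b (n - 1)` -/
noncomputable def eps (h : n ≤ N) (v : Fin n → Fin N) : ℂ :=
  Matrix.det (Matrix.of fun r s : Fin n => if v r = Fin.castLE h s then (1 : ℂ) else 0)

theorem eps_sum (h : n ≤ N) (φ : Fin n → Fin N → ℂ) :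
    ∑ v : Fin n → Fin N, (∏ r, φ r (v r)) * eps h v =
      Matrix.det (Matrix.of fun r s : Fin n => φ r (Fin.castLE h s)) := by
  have h1 : (Matrix.of fun r s : Fin n => φ r (Fin.castLE h s)) =
      fun r => ∑ k : Fin N, φ r k • (fun s : Fin n => if k = Fin.castLE h s then (1 : ℂ) else 0) := by
    ext r s
    simp [Finset.sum_apply]
  have h2 : Matrix.det (Matrix.of fun r s : Fin n => φ r (Fin.castLE h s)) =
      (Matrix.detRowAlternating (n := Fin n) (R := ℂ)).toMultilinearMap
        (fun r => ∑ k : Fin N, φ r k •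
          (fun s : Fin n => if k = Fin.castLE h s then (1 : ℂ) else 0)) := by
    rw [h1]; rfl
  rw [h2, MultilinearMap.map_sum]
  refine Finset.sum_congr rfl fun v _ => ?_
  rw [MultilinearMap.map_smul_univ]
  rfl

/-- a product of brackets, arranged according to the bijection `e` -/
noncomputable def brk (h : n ≤ N) (e : Equiv.Perm (Fin d × Fin n)) (I : Fin d × Fin n → Fin N) :
    ℂ :=
  ∏ β : Fin d, eps h (fun r => I (e (β, r)))

theorem brk_sum (h : n ≤ N) (e : Equiv.Perm (Fin d × Fin n)) (ψ : Fin d × Fin n → Fin N → ℂ) :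
    ∑ I : Fin d × Fin n → Fin N, (∏ a, ψ a (I a)) * brk h e I =
      ∏ β : Fin d, Matrix.det (Matrix.of fun r s : Fin n => ψ (e (β, r)) (Fin.castLE h s)) := by
  have h1 : ∀ β : Fin d,
      Matrix.det (Matrix.of fun r s : Fin n => ψ (e (β, r)) (Fin.castLE h s)) =
        ∑ v : Fin n → Fin N, (∏ r, ψ (e (β, r)) (v r)) * eps h v :=
    fun β => (eps_sum h (fun r => ψ (e (β, r)))).symm
  rw [Finset.prod_congr rfl (fun β _ => h1 β), Finset.prod_univ_sum]
  simp only [Fintype.piFinset_univ, Finset.prod_mul_distrib]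
  let E : (Fin d → Fin n → Fin N) ≃ (Fin d × Fin n → Fin N) :=
    (Equiv.curry (Fin d) (Fin n) (Fin N)).symm.trans (Equiv.arrowCongr e (Equiv.refl _))
  rw [← Equiv.sum_comp E]
  refine Finset.sum_congr rfl fun J _ => ?_
  have hE : ∀ β r, E J (e (β, r)) = J β r := by
    intro β r
    simp [E, Equiv.arrowCongr]
  unfold brk
  simp only [hE]
  congr 1
  rw [← Equiv.prod_comp e, Fintype.prod_prod_type]
  refine Finset.prod_congr rfl fun β _ => Finset.prod_congr rfl fun r _ => ?_
  rw [hE]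

/-- the coordinates of the symmetrized product of brackets -/
noncomputable def symBrk (h : n ≤ N) (e : Equiv.Perm (Fin d × Fin n))
    (I : Fin d × Fin n → Fin N) : ℂ :=
  ∑ π : Equiv.Perm (Fin d), ∑ τ : Fin d → Equiv.Perm (Fin n),
    brk h e (I ∘ Equiv.prodShear π τ)

theorem symBrk_shear (h : n ≤ N) (e : Equiv.Perm (Fin d × Fin n)) (π₀ : Equiv.Perm (Fin d))
    (τ₀ : Fin d → Equiv.Perm (Fin n)) (I : Fin d × Fin n → Fin N) :
    symBrk h e (I ∘ Equiv.prodShear π₀ τ₀) = symBrk h e I := by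
  unfold symBrk
  symm
  rw [← Equiv.sum_comp (Equiv.mulLeft π₀)]
  refine Finset.sum_congr rfl fun π _ => ?_
  let E : (Fin d → Equiv.Perm (Fin n)) ≃ (Fin d → Equiv.Perm (Fin n)) :=
    Equiv.piCongrRight fun i => Equiv.mulLeft (τ₀ (π i))
  rw [← Equiv.sum_comp E]
  refine Finset.sum_congr rfl fun τ _ => ?_
  congr 1

theorem upper_minor (h : n ≤ N) (G : Matrix (Fin N) (Fin N) ℂ) (hG : ∀ i j, j < i → G i j = 0)
    (v : Fin n → Fin N) :
    Matrix.det (Matrix.of fun r s : Fin n => G (v r) (Fin.castLE h s)) =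
      (∏ s : Fin n, G (Fin.castLE h s) (Fin.castLE h s)) * eps h v := by
  have h1 : (Matrix.of fun r s : Fin n => G (v r) (Fin.castLE h s)) =
      (Matrix.of fun r s : Fin n => if v r = Fin.castLE h s then (1 : ℂ) else 0) *
        (Matrix.of fun r s : Fin n => G (Fin.castLE h r) (Fin.castLE h s)) := by
    ext r s
    rw [Matrix.mul_apply]
    simp only [Matrix.of_apply]
    by_cases hv : (v r : ℕ) < n
    · rw [Finset.sum_eq_single (⟨v r, hv⟩ : Fin n)]
      · have : v r = Fin.castLE h ⟨v r, hv⟩ := by ext; simp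
        rw [if_pos this, one_mul, ← this]
      · intro k _ hk
        rw [if_neg, zero_mul]
        intro h2
        apply hk
        ext
        simp [h2]
      · simp
    · rw [hG _ _ (by rw [Fin.lt_def, Fin.val_castLE]; have := s.isLt; omega)]
      symm
      refine Finset.sum_eq_zero fun k _ => ?_
      rw [if_neg, zero_mul]
      intro h2
      apply hv
      rw [h2]
      simp
  have h2 : (Matrix.of fun r s : Fin n => G (Fin.castLE h r) (Fin.castLE h s)).det =
      ∏ s : Fin n, G (Fin.castLE h s) (Fin.castLE h s) := by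
    rw [Matrix.det_of_isUpperTriangular]
    · rfl
    · intro i j hij
      exact hG _ _ hij
  rw [h1, Matrix.det_mul, h2, mul_comm]
  rfl

theorem act_brk (h : n ≤ N) (e : Equiv.Perm (Fin d × Fin n)) (G : Matrix (Fin N) (Fin N) ℂ)
    (hG : ∀ i j, j < i → G i j = 0) (I : Fin d × Fin n → Fin N) :
    act G (brk h e) I =
      (∏ s : Fin n, G (Fin.castLE h s) (Fin.castLE h s)) ^ d * brk h e I := by
  unfold act
  rw [brk_sum h e (fun a k => G (I a) k)]
  rw [Finset.prod_congr rfl (fun β _ => upper_minor h G hG (fun r => I (e (β, r))))]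
  rw [Finset.prod_mul_distrib, Finset.prod_const, Finset.card_univ, Fintype.card_fin]
  rfl

theorem act_comp (G : Matrix (Fin N) (Fin N) ℂ) (σ : Equiv.Perm (Fin d × Fin n))
    (c : (Fin d × Fin n → Fin N) → ℂ) (I : Fin d × Fin n → Fin N) :
    act G (fun J => c (J ∘ σ)) I = act G c (I ∘ σ) := by
  unfold act
  rw [← Equiv.sum_comp (Equiv.arrowCongr σ (Equiv.refl (Fin N)))
    (fun J => (∏ a, G (I a) (J a)) * c (J ∘ σ))]
  refine Finset.sum_congr rfl fun J _ => ?_
  have h1 : (Equiv.arrowCongr σ (Equiv.refl (Fin N))) J ∘ σ = J := by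
    ext a; simp [Equiv.arrowCongr]
  rw [h1]
  congr 1
  rw [← Equiv.prod_comp σ]
  refine Finset.prod_congr rfl fun a _ => ?_
  simp [Equiv.arrowCongr]

/-- the symmetrized product of brackets as a tensor -/
noncomputable def tBrk (h : n ≤ N) (b : Module.Basis (Fin N) ℂ V)
    (e : Equiv.Perm (Fin d × Fin n)) : Ten V d n :=
  ofCo b (symBrk h e)

theorem tBrk_mem (h : n ≤ N) (b : Module.Basis (Fin N) ℂ V) (e : Equiv.Perm (Fin d × Fin n)) :
    tBrk h b e ∈ SdSn V d n := by
  intro π τ
  apply co_injective b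
  funext I
  rw [co_wr, tBrk, co_ofCo, symBrk_shear]

theorem tBrk_hw (h : n ≤ N) (b : Module.Basis (Fin N) ℂ V) (e : Equiv.Perm (Fin d × Fin n)) :
    IsHighestWeight b (rect d n N) (tBrk h b e) := by
  intro g hg
  apply co_injective b
  funext I
  rw [glAct, co_map, co_smul, tBrk, co_ofCo]
  set G : Matrix (Fin N) (Fin N) ℂ := fun i j => b.repr (g (b j)) i with hG
  have h1 : act (fun i j => b.repr (g.toLinearMap (b j)) i) (symBrk h e) I =
      ∑ π : Equiv.Perm (Fin d), ∑ τ : Fin d → Equiv.Perm (Fin n),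
        act G (fun J => brk h e (J ∘ Equiv.prodShear π τ)) I := by
    unfold act symBrk
    simp only [Finset.mul_sum]
    rw [Finset.sum_comm]
    refine Finset.sum_congr rfl fun π _ => ?_
    rw [Finset.sum_comm]
    rfl
  rw [h1]
  simp only [act_comp, act_brk h e G hg]
  simp only [← Finset.mul_sum]
  rw [Pi.smul_apply, smul_eq_mul]
  congr 1
  rw [← Finset.prod_pow]
  apply Fintype.prod_of_injective (Fin.castLE h) (Fin.castLE_injective h)
  · intro i hi
    have : ¬ (i : ℕ) < n := fun h2 => hi ⟨⟨i, h2⟩, rfl⟩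
    simp [rect, this]
  · intro i
    simp [rect, hG]

theorem symBrk_pair (h : n ≤ N) (e : Equiv.Perm (Fin d × Fin n)) (l : Fin d → Fin N → ℂ) :
    ∑ I : Fin d × Fin n → Fin N, (∏ a, l a.1 (I a)) * symBrk h e I =
      ((n.factorial : ℂ) ^ d) * ∑ π : Equiv.Perm (Fin d), ∏ β : Fin d,
        Matrix.det (Matrix.of fun r s : Fin n => l (π (e (β, r)).1) (Fin.castLE h s)) := by
  unfold symBrk
  simp only [Finset.mul_sum]
  rw [Finset.sum_comm]
  refine Finset.sum_congr rfl fun π _ => ?_
  rw [Finset.sum_comm]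
  have h1 : ∀ τ : Fin d → Equiv.Perm (Fin n),
      ∑ I : Fin d × Fin n → Fin N, (∏ a, l a.1 (I a)) * brk h e (I ∘ Equiv.prodShear π τ) =
        ∏ β : Fin d,
          Matrix.det (Matrix.of fun r s : Fin n => l (π (e (β, r)).1) (Fin.castLE h s)) := by
    intro τ
    rw [← brk_sum h e (fun a => l (π a.1))]
    set σ : Equiv.Perm (Fin d × Fin n) := Equiv.prodShear π τ with hσ
    rw [← Equiv.sum_comp (Equiv.arrowCongr σ (Equiv.refl (Fin N)))]
    refine Finset.sum_congr rfl fun J _ => ?_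
    have h2 : (Equiv.arrowCongr σ (Equiv.refl (Fin N))) J ∘ σ = J := by
      ext a; simp [Equiv.arrowCongr]
    rw [h2]
    congr 1
    rw [← Equiv.prod_comp σ]
    refine Finset.prod_congr rfl fun a _ => ?_
    have h3 : (Equiv.arrowCongr σ (Equiv.refl (Fin N))) J (σ a) = J a := congrFun h2 a
    rw [h3]
    rfl
  rw [Finset.sum_congr rfl (fun τ _ => h1 τ), Finset.sum_const, Finset.card_univ]
  rw [Fintype.card_pi]
  simp [Fintype.card_perm]

theorem tBrk_ne_zero (h : n ≤ N) (b : Module.Basis (Fin N) ℂ V) (e : Equiv.Perm (Fin d × Fin n))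
    (l : Fin d → Fin n → ℤ)
    (hl : ∑ π : Equiv.Perm (Fin d), ∏ β : Fin d,
      Matrix.det (Matrix.of fun r s : Fin n => l (π (e (β, r)).1) s) ≠ 0) :
    tBrk h b e ≠ 0 := by
  intro h0
  have h1 : symBrk h e = 0 := by
    rw [← co_ofCo b (symBrk h e)]
    change co b (tBrk h b e) = 0
    rw [h0, co_zero]
  have h2 := symBrk_pair h e (fun i k => if hk : (k : ℕ) < n then (l i ⟨k, hk⟩ : ℂ) else 0)
  rw [h1] at h2
  simp only [Pi.zero_apply, mul_zero, Finset.sum_const_zero] at h2
  rcases mul_eq_zero.1 h2.symm with h3 | h3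
  · exact pow_ne_zero d (Nat.cast_ne_zero.2 n.factorial_ne_zero) h3
  · apply hl
    have h4 : ((∑ π : Equiv.Perm (Fin d), ∏ β : Fin d,
        Matrix.det (Matrix.of fun r s : Fin n => l (π (e (β, r)).1) s) : ℤ) : ℂ) = 0 := by
      rw [← h3]
      push_cast
      refine Finset.sum_congr rfl fun π _ => Finset.prod_congr rfl fun β _ => ?_
      congr 1
      ext r s
      simp
    exact_mod_cast h4

end Pool.Agent.TH13.HHH
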