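import Pool.Agent.TH13.HHHOdd

/-!
# For odd `d` the map `h_{d,n}` kills the `(d^n)`-component of `S^d(S^n V)`
-/

set_option autoImplicit false

namespace Pool.Agent.TH13.HHH

open PiTensorProduct

variable {V : Type} [AddCommGroup V] [Module ℂ V] {d n N : ℕ}

theorem co_wr (b : Module.Basis (Fin N) ℂ V) (π : Equiv.Perm (Fin d))
    (τ : Fin d → Equiv.Perm (Fin n)) (t : Ten V d n) (I : Fin d × Fin n → Fin N) :
    co b (wr π τ t) I = co b t (I ∘ Equiv.prodShear π τ) :=
  co_reindex b _ t I

theorem mem_SdSn_co (b : Module.Basis (Fin N) ℂ V) {t : Ten V d n} (ht : t ∈ SdSn V d n)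
    (π : Equiv.Perm (Fin d)) (τ : Fin d → Equiv.Perm (Fin n)) (I : Fin d × Fin n → Fin N) :
    co b t (I ∘ Equiv.prodShear π τ) = co b t I := by
  rw [← co_wr, ht π τ]

theorem hw_matrix (b : Module.Basis (Fin N) ℂ V) {w : Fin N → ℕ} {t : Ten V d n}
    (ht : IsHighestWeight b w t) (G : Matrix (Fin N) (Fin N) ℂ) (hG : ∀ i j, j < i → G i j = 0)
    (hd : ∀ i, G i i ≠ 0) : act G (co b t) = (∏ i, G i i ^ w i) • co b t := by
  have hdet : IsUnit G.det := by
    rw [Matrix.det_of_isUpperTriangular (fun i j hij => hG i j hij)]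
    exact isUnit_iff_ne_zero.2 (Finset.prod_ne_zero_iff.2 fun i _ => hd i)
  have h1 : ∀ i j, b.repr (Matrix.toLinearEquiv b G hdet (b j)) i = G i j := by
    intro i j
    rw [Matrix.toLinearEquiv_apply, Matrix.toLin_self, map_sum, Finsupp.finsetSum_apply]
    simp [Finsupp.single_apply]
  have h2 := ht (Matrix.toLinearEquiv b G hdet) (fun i j hij => by rw [h1]; exact hG i j hij)
  have h3 := congrArg (co b) h2
  rw [glAct, co_map, co_smul] at h3
  simp only [LinearEquiv.coe_coe, h1] at h3
  exact h3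

theorem hw_support (b : Module.Basis (Fin N) ℂ V) {t : Ten V d n}
    (ht : IsHighestWeight b (rect d n N) t) (I : Fin d × Fin n → Fin N) (a : Fin d × Fin n)
    (ha : n ≤ (I a : ℕ)) : co b t I = 0 := by
  have h1 := congrFun (hw_matrix b ht (Matrix.diagonal fun i => if (i : ℕ) < n then 1 else 2)
    (fun i j hij => Matrix.diagonal_apply_ne _ (ne_of_gt hij))
    (fun i => by rw [Matrix.diagonal_apply_eq]; split_ifs <;> norm_num)) I
  have h2 : ∀ i : Fin N, (Matrix.diagonal (fun i : Fin N => if (i : ℕ) < n then (1 : ℂ) else 2) i i)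
      ^ rect d n N i = 1 := by
    intro i
    rw [Matrix.diagonal_apply_eq, rect]
    split_ifs <;> simp
  rw [Finset.prod_congr rfl (fun i _ => h2 i), Finset.prod_const_one, one_smul] at h1
  have h3 : act (Matrix.diagonal fun i : Fin N => if (i : ℕ) < n then (1 : ℂ) else 2) (co b t) I =
      (∏ a, if (I a : ℕ) < n then (1 : ℂ) else 2) * co b t I := by
    unfold act
    rw [Finset.sum_eq_single I]
    · simp
    · intro J _ hJ
      obtain ⟨a, ha⟩ := Function.ne_iff.1 hJ
      have h0 : (Matrix.diagonal fun i : Fin N => if (i : ℕ) < n then (1 : ℂ) else 2)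
          (I a) (J a) = 0 := Matrix.diagonal_apply_ne _ (fun h => ha h.symm)
      rw [Finset.prod_eq_zero (Finset.mem_univ a) h0, zero_mul]
    · simp
  rw [h3, Finset.prod_ite, Finset.prod_const_one, one_mul, Finset.prod_const] at h1
  set k := (Finset.univ.filter fun a => ¬ ((I a : ℕ) < n)).card with hk
  have hk0 : 0 < k := Finset.card_pos.2 ⟨a, by simp [ha]⟩
  have h4 : ((2 : ℂ) ^ k - 1) * co b t I = 0 := by linear_combination h1
  rcases mul_eq_zero.1 h4 with h | h
  · exfalso
    have h5 : (2 : ℕ) ^ k = 1 := by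
      have : ((2 : ℕ) ^ k : ℂ) = ((1 : ℕ) : ℂ) := by push_cast; linear_combination h
      exact_mod_cast this
    have h6 : 1 < (2 : ℕ) ^ k := Nat.one_lt_two_pow (by omega)
    omega
  · exact h

theorem hw_bsemi (hnN : n ≤ N) (b : Module.Basis (Fin N) ℂ V) {t : Ten V d n}
    (ht : IsHighestWeight b (rect d n N) t) :
    BSemi d (fun I : Fin d × Fin n → Fin n => co b t (fun a => Fin.castLE hnN (I a))) := by
  intro G hG hd
  set G' : Matrix (Fin N) (Fin N) ℂ := Matrix.of fun i j =>
    if h : (i : ℕ) < n ∧ (j : ℕ) < n then G ⟨i, h.1⟩ ⟨j, h.2⟩ else if i = j then 1 else 0 with hG'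
  have h1 := hw_matrix b ht G' (by
    intro i j hij
    simp only [hG', Matrix.of_apply]
    split_ifs with h2 h3
    · exact hG _ _ hij
    · exact absurd h3 (ne_of_gt hij)
    · rfl) (by
    intro i
    simp only [hG', Matrix.of_apply]
    split_ifs with h2
    · exact hd _
    · exact one_ne_zero)
  funext I
  have h2 := congrFun h1 (fun a => Fin.castLE hnN (I a))
  have h3 : act G' (co b t) (fun a => Fin.castLE hnN (I a)) =
      act G (fun I : Fin d × Fin n → Fin n => co b t (fun a => Fin.castLE hnN (I a))) I := by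
    unfold act
    symm
    apply Fintype.sum_of_injective (fun J : Fin d × Fin n → Fin n => fun a => Fin.castLE hnN (J a))
    · intro J K hJK
      funext a
      exact Fin.castLE_injective hnN (congrFun hJK a)
    · intro J hJ
      have : ∃ a, n ≤ (J a : ℕ) := by
        by_contra hcon
        push Not at hcon
        exact hJ ⟨fun a => ⟨J a, hcon a⟩, rfl⟩
      obtain ⟨a, ha⟩ := this
      rw [Finset.prod_eq_zero (Finset.mem_univ a), zero_mul]
      simp only [hG', Matrix.of_apply]
      rw [dif_neg (by omega), if_neg]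
      intro h
      have := congrArg Fin.val h
      simp at this
      have := (I a).isLt
      omega
    · intro J
      congr 1
      refine Finset.prod_congr rfl fun a _ => ?_
      simp [hG']
  rw [h3] at h2
  rw [h2]
  have h4 : ∏ i, G' i i ^ rect d n N i = (∏ i, G i i) ^ d := by
    rw [← Finset.prod_pow]
    symm
    apply Fintype.prod_of_injective (Fin.castLE hnN) (Fin.castLE_injective hnN)
    · intro i hi
      have : ¬ (i : ℕ) < n := fun h => hi ⟨⟨i, h⟩, rfl⟩
      simp [rect, this]
    · intro i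
      simp [rect, hG']
  rw [h4]
  rfl

theorem hw_colSum (hnN : n ≤ N) (hd : Odd d) (hn : 2 ≤ n) (b : Module.Basis (Fin N) ℂ V)
    {t : Ten V d n} (hS : t ∈ SdSn V d n) (ht : IsHighestWeight b (rect d n N) t)
    (I : Fin d × Fin n → Fin N) :
    ∑ τ : Fin n → Equiv.Perm (Fin d), co b t (I ∘ colPerm τ) = 0 := by
  by_cases hI : ∃ a, n ≤ (I a : ℕ)
  · obtain ⟨a, ha⟩ := hI
    refine Finset.sum_eq_zero fun τ _ => ?_
    exact hw_support b ht _ ((colPerm τ).symm a) (by simpa using ha)
  · push Not at hI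
    have h1 := colSum_zero (hw_bsemi hnN b ht) hd hn (by
      intro ρ J
      have := mem_SdSn_co b hS 1 (fun _ => ρ) (fun a => Fin.castLE hnN (J a))
      exact this) (fun a => ⟨I a, hI a⟩)
    exact h1

theorem co_symInner (b : Module.Basis (Fin N) ℂ V) (t : Ten V d n) (K : Fin n × Fin d → Fin N) :
    co b (symInner V n d (regroup V d n t)) K =
      ((d.factorial : ℂ) ^ n)⁻¹ * ∑ τ : Fin n → Equiv.Perm (Fin d),
        co b t ((fun a : Fin d × Fin n => K (a.2, a.1)) ∘ colPerm τ) := by
  rw [symInner, LinearMap.smul_apply, LinearMap.sum_apply, co_smul, co_sum]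
  simp only [Pi.smul_apply, Finset.sum_apply, smul_eq_mul]
  congr 1
  refine Finset.sum_congr rfl fun τ _ => ?_
  rw [LinearEquiv.coe_coe, co_wr, regroup, co_reindex]
  rfl

/-- `h_{d,n}` is `GL(V)`-equivariant -/
theorem hhh_glAct (g : V ≃ₗ[ℂ] V) (t : Ten V d n) :
    hhh V d n (glAct g t) = glAct g (hhh V d n t) := by
  have h1 : ∀ (d n : ℕ) (π : Equiv.Perm (Fin d)) (τ : Fin d → Equiv.Perm (Fin n)) (t : Ten V d n),
      wr π τ (glAct g t) = glAct g (wr π τ t) := by
    intro d n π τ t
    exact (map_reindex (fun _ => g.toLinearMap) _ t).symm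
  have h2 : regroup V d n (glAct g t) = glAct g (regroup V d n t) :=
    (map_reindex (fun _ => g.toLinearMap) _ t).symm
  simp only [hhh, symOuter, symInner, LinearMap.comp_apply, LinearEquiv.coe_coe, h2,
    LinearMap.smul_apply, LinearMap.sum_apply, h1, map_smul, map_sum]

theorem hhh_eq_zero (hnN : n ≤ N) (hd : Odd d) (hn : 2 ≤ n) (b : Module.Basis (Fin N) ℂ V)
    {t : Ten V d n} (hS : t ∈ SdSn V d n) (ht : IsHighestWeight b (rect d n N) t) :
    hhh V d n t = 0 := by
  have h1 : symInner V n d (regroup V d n t) = 0 := by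
    apply co_injective b
    funext K
    rw [co_symInner, hw_colSum hnN hd hn b hS ht, mul_zero, co_zero]
    rfl
  rw [hhh, LinearMap.comp_apply, LinearMap.comp_apply, LinearEquiv.coe_coe, h1, map_zero]

/-- For odd `d` and `2 ≤ n ≤ dim V` the map `h_{d,n}` vanishes on the `S_{(d^n)} V`-isotypic
component of `S^d(S^n V)`. -/
theorem hhh_rectComponent (hnN : n ≤ N) (hd : Odd d) (hn : 2 ≤ n) (b : Module.Basis (Fin N) ℂ V)
    {x : Ten V d n} (hx : x ∈ rectComponent b d n) : hhh V d n x = 0 := by
  have h : rectComponent b d n ≤ LinearMap.ker (hhh V d n) := by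
    rw [rectComponent, Submodule.span_le]
    rintro x ⟨g, t, hS, ht, rfl⟩
    rw [SetLike.mem_coe, LinearMap.mem_ker, hhh_glAct, hhh_eq_zero hnN hd hn b hS ht, map_zero]
  exact h hx

end Pool.Agent.TH13.HHH
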