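import Pool.Agent.TH13.HHHFano

/-!
# The bracket invariant of degree `7` of quaternary quartics attached to the Fano plane

The seven brackets are the complements of the lines of the Fano plane on `{0, …, 6}`.
-/

set_option autoImplicit false

namespace Pool.Agent.TH13.HHH

/-- the brackets -/
def blk : Fin 7 → Fin 4 → Fin 7 :=
  ![![0, 1, 2, 3], ![0, 1, 4, 5], ![0, 2, 4, 6], ![0, 3, 5, 6], ![1, 2, 5, 6], ![1, 3, 4, 6],
    ![2, 3, 4, 5]]

/-- which of the four occurrences of a symbol is used in a bracket -/
def slot : Fin 7 → Fin 4 → Fin 4 :=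
  ![![0, 0, 0, 0], ![1, 1, 0, 0], ![2, 1, 1, 0], ![3, 1, 1, 1], ![2, 2, 2, 2], ![3, 2, 2, 3],
    ![3, 3, 3, 3]]

/-- the arrangement of the brackets -/
noncomputable def fano : Equiv.Perm (Fin 7 × Fin 4) :=
  Equiv.ofBijective (fun a => (blk a.1 a.2, slot a.1 a.2)) (by decide +kernel)

/-- seven vectors at which the invariant does not vanish -/
def pts : Fin 7 → Fin 4 → ℤ :=
  ![![1, 0, 0, 0], ![0, 1, 0, 0], ![0, 0, 1, 0], ![0, 0, 0, 1], ![1, 1, 1, 0], ![-1, -1, -1, 1],
    ![1, -1, 0, 1]]

/-- a `4 × 4` determinant -/
def det4 (a b c d : Fin 4 → ℤ) : ℤ :=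
  (a 0 * b 1 - a 1 * b 0) * (c 2 * d 3 - c 3 * d 2) - (a 0 * b 2 - a 2 * b 0) *
    (c 1 * d 3 - c 3 * d 1) + (a 0 * b 3 - a 3 * b 0) * (c 1 * d 2 - c 2 * d 1) +
    (a 1 * b 2 - a 2 * b 1) * (c 0 * d 3 - c 3 * d 0) - (a 1 * b 3 - a 3 * b 1) *
    (c 0 * d 2 - c 2 * d 0) + (a 2 * b 3 - a 3 * b 2) * (c 0 * d 1 - c 1 * d 0)

theorem det4_eq (a b c d : Fin 4 → ℤ) : Matrix.det (Matrix.of ![a, b, c, d]) = det4 a b c d := by
  simp [Matrix.det_succ_row_zero, Fin.sum_univ_succ, Fin.succAbove, det4]
  ring

/-- table of the determinants of quadruples of the seven vectors -/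
def tab : ℕ := 11912988401942713319943491202027141045557917991647779553116772598998265957462950539704025564724477722534318364804177287159092075618464437852286323779733882242396432484072755963048904707184417202640578219000964744103835125750655326926821710945127506302116727874770949257279173044353489248799962427357162803212392004402688876005461306108989378791851108231740629332388939029679371792081861931816438257642889713457905349491618271426141553157679136483272864179029149516873636612740564994918690863055955192247222916066136189057569747171514185364822177990956294588355473375795099647950714345301487865420092987882795179376860811746599644493491977579168234660555163897492504629573541420683653165001991660713068182460794142899664151392720468155761856093303192745616128942751992970427960972867490373843863596821684588008621195973432207673518632497187177662159015964964856154805104318727245133428911576404810957130085268987892949320078091960140821292459753594881480395428408611025585634191907873376025594473799313498410417770481607242072713402424015655746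6346362556866382351418882843261860729097862418256746397761244614295951216025826546460467408936819128095239359740569441757811286613637950556787718087642152616171548518602417603929945678652607938128138470503704372535374431000360491134077688940607383125521764167309265093290714789554017171591838978508295046074001676950279406346261490903527133712861694581459730227388451880147696731412485418804915000167809193109183309830815320188337351314623015234376913268601380383105165818934113850953987660507504044414524551923559575436967726860431011979839735734159137705367697715216546543725671040566883253052141859755833811911474210192898762486829365004550797302106236816537120282600873860223532297833550351696414244230401432818938693334454793503592800418382827271848358276799753768529268207266496159548142613497036725036714439184904386806906182449619425529803328400443802101324554591242068624199412418107202449107640179960856392412463079857604952365871025441806326894591360963178348845647282925177396705997956316118975648400814900158493792901308934164981008585092821207747777266879941808716354968142529217513738768274757400787204632103204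

/-- the determinants of quadruples of the seven vectors -/
def dt (a b c d : Fin 7) : ℤ :=
  Int.subNatNat ((tab >>> (3 * (a.val + 7 * b.val + 49 * c.val + 343 * d.val))) % 8) 4

theorem dt_eq : ∀ a b c d : Fin 7, dt a b c d = det4 (pts a) (pts b) (pts c) (pts d) := by
  decide +kernel

def sum7 (f : Fin 7 → ℤ) : ℤ := f 0 + f 1 + f 2 + f 3 + f 4 + f 5 + f 6

theorem sum7_eq (f : Fin 7 → ℤ) : sum7 f = ∑ k, f k := by
  rw [Fin.sum_univ_seven]; rfl

/-- `x * r`, computed lazily -/
def lmul (x r : ℤ) : ℤ := if x = 0 then 0 else x * r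

theorem lmul_eq (x r : ℤ) : lmul x r = x * r := by
  unfold lmul; split_ifs with h <;> simp [h]

def total : ℤ :=
  sum7 fun k0 => sum7 fun k1 => sum7 fun k2 => sum7 fun k3 =>
    lmul (dt k0 k1 k2 k3) (sum7 fun k4 => sum7 fun k5 =>
      lmul (dt k0 k1 k4 k5) (lmul (dt k2 k3 k4 k5) (sum7 fun k6 =>
        lmul (dt k0 k2 k4 k6) (lmul (dt k0 k3 k5 k6)
          (lmul (dt k1 k2 k5 k6) (dt k1 k3 k4 k6))))))

theorem total_eq : total = -2016 := by
  decide +kernel

/-- the product of the seven brackets at the vectors selected by `κ` -/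
def term (κ : Fin 7 → Fin 7) : ℤ :=
  dt (κ 0) (κ 1) (κ 2) (κ 3) * (dt (κ 0) (κ 1) (κ 4) (κ 5) * (dt (κ 2) (κ 3) (κ 4) (κ 5) *
    (dt (κ 0) (κ 2) (κ 4) (κ 6) * (dt (κ 0) (κ 3) (κ 5) (κ 6) *
      (dt (κ 1) (κ 2) (κ 5) (κ 6) * dt (κ 1) (κ 3) (κ 4) (κ 6))))))

theorem det_blk (κ : Fin 7 → Fin 7) (β : Fin 7) :
    Matrix.det (Matrix.of fun r s : Fin 4 => pts (κ (blk β r)) s) =
      dt (κ (blk β 0)) (κ (blk β 1)) (κ (blk β 2)) (κ (blk β 3)) := by
  rw [dt_eq, ← det4_eq]
  congr 1
  ext r s
  fin_cases r <;> rfl

theorem prod_blk (κ : Fin 7 → Fin 7) :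
    ∏ β : Fin 7, Matrix.det (Matrix.of fun r s : Fin 4 => pts (κ (blk β r)) s) = term κ := by
  simp only [det_blk, Fin.prod_univ_seven]
  change dt (κ 0) (κ 1) (κ 2) (κ 3) * dt (κ 0) (κ 1) (κ 4) (κ 5) * dt (κ 0) (κ 2) (κ 4) (κ 6) *
    dt (κ 0) (κ 3) (κ 5) (κ 6) * dt (κ 1) (κ 2) (κ 5) (κ 6) * dt (κ 1) (κ 3) (κ 4) (κ 6) *
    dt (κ 2) (κ 3) (κ 4) (κ 5) = term κ
  unfold term
  ring

theorem pair_in_blk : ∀ x y : Fin 7, x ≠ y → ∃ (β : Fin 7) (r r' : Fin 4), r ≠ r' ∧
    blk β r = x ∧ blk β r' = y := by
  decide +kernel

theorem term_eq_zero (κ : Fin 7 → Fin 7) (h : ¬ Function.Injective κ) : term κ = 0 := by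
  rw [← prod_blk]
  simp only [Function.Injective, not_forall] at h
  obtain ⟨x, y, hxy, hne⟩ := h
  obtain ⟨β, r, r', hr, h1, h2⟩ := pair_in_blk x y hne
  refine Finset.prod_eq_zero (Finset.mem_univ β) ?_
  refine Matrix.det_zero_of_row_eq hr ?_
  ext s
  simp [h1, h2, hxy]

theorem sum_perm : ∑ π : Equiv.Perm (Fin 7), term π = ∑ κ : Fin 7 → Fin 7, term κ := by
  refine Fintype.sum_of_injective (fun π : Equiv.Perm (Fin 7) => (π : Fin 7 → Fin 7))
    DFunLike.coe_injective _ _ ?_ (fun _ => rfl)
  intro κ hκ
  apply term_eq_zero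
  intro hinj
  exact hκ ⟨Equiv.ofBijective κ (Finite.injective_iff_bijective.1 hinj), rfl⟩

theorem sum_cons {m : ℕ} (F : (Fin (m + 1) → Fin 7) → ℤ) :
    ∑ κ : Fin (m + 1) → Fin 7, F κ = ∑ k : Fin 7, ∑ κ : Fin m → Fin 7, F (Fin.cons k κ) := by
  rw [← (Fin.consEquiv (fun _ : Fin (m + 1) => Fin 7)).sum_comp, Fintype.sum_prod_type]
  rfl

theorem sum_term : ∑ κ : Fin 7 → Fin 7, term κ = total := by
  unfold total
  simp only [sum_cons, sum7_eq, lmul_eq, Finset.mul_sum, Finset.univ_unique,
    Finset.sum_singleton]
  rfl

theorem fano_sum : ∑ π : Equiv.Perm (Fin 7), ∏ β : Fin 7,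
    Matrix.det (Matrix.of fun r s : Fin 4 => pts (π (fano (β, r)).1) s) ≠ 0 := by
  have h : ∀ π : Equiv.Perm (Fin 7), ∏ β : Fin 7,
      Matrix.det (Matrix.of fun r s : Fin 4 => pts (π (fano (β, r)).1) s) = term π :=
    fun π => prod_blk π
  rw [Finset.sum_congr rfl (fun π _ => h π), sum_perm, sum_term, total_eq]
  norm_num

end Pool.Agent.TH13.HHH
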