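import Pool.Agent.TH13.HHHCoord

/-!
# The rectangular component is killed when `d` is odd: the statement on coordinate functions
-/

set_option autoImplicit false
set_option linter.unusedSectionVars false

namespace Pool.Agent.TH13.HHH

open Polynomial

section act

variable {A : Type} [Fintype A] [DecidableEq A] {n : ℕ}

theorem act_one (c : (A → Fin n) → ℂ) : act 1 c = c := by
  funext I
  have h : ∀ J : A → Fin n, (∏ a, (1 : Matrix (Fin n) (Fin n) ℂ) (I a) (J a)) * c J =
      if J = I then c J else 0 := by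
    intro J
    by_cases hJ : J = I
    · subst hJ; simp
    · obtain ⟨a, ha⟩ := Function.ne_iff.1 hJ
      have h0 : (1 : Matrix (Fin n) (Fin n) ℂ) (I a) (J a) = 0 :=
        Matrix.one_apply_ne (fun h => ha h.symm)
      rw [Finset.prod_eq_zero (Finset.mem_univ a) h0]
      simp [hJ]
  simp only [act, h]
  simp

theorem act_mul (G H : Matrix (Fin n) (Fin n) ℂ) (c : (A → Fin n) → ℂ) :
    act (G * H) c = act G (act H c) := by
  funext I
  simp only [act, Matrix.mul_apply, Finset.mul_sum]
  rw [Finset.sum_comm]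
  refine Finset.sum_congr rfl fun J _ => ?_
  rw [Finset.prod_univ_sum]
  simp only [Fintype.piFinset_univ, Finset.prod_mul_distrib]
  rw [Finset.sum_mul]
  exact Finset.sum_congr rfl fun K _ => by ring

theorem act_smul (G : Matrix (Fin n) (Fin n) ℂ) (k : ℂ) (c : (A → Fin n) → ℂ) :
    act G (k • c) = k • act G c := by
  funext I
  simp only [act, Pi.smul_apply, smul_eq_mul, Finset.mul_sum]
  exact Finset.sum_congr rfl fun K _ => by ring

theorem act_poly (G₀ G₁ : Matrix (Fin n) (Fin n) ℂ) (c : (A → Fin n) → ℂ) (I : A → Fin n) :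
    ∃ P : ℂ[X], ∀ s : ℂ, P.eval s = act (G₀ + s • G₁) c I := by
  refine ⟨∑ J : A → Fin n, (∏ a, (C (G₀ (I a) (J a)) + X * C (G₁ (I a) (J a)))) * C (c J), ?_⟩
  intro s
  simp only [act, eval_finsetSum, eval_mul, eval_prod, eval_add, eval_C, eval_X,
    Matrix.add_apply, Matrix.smul_apply, smul_eq_mul]

theorem poly_const (P Q : ℂ[X]) (h : ∀ s : ℂ, s ≠ 0 → P.eval s = Q.eval s⁻¹) (s : ℂ) :
    P.eval s = P.eval 0 := by
  have h1 : ∀ s : ℂ, s ≠ 0 → (X ^ Q.natDegree * P).eval s = Q.reverse.eval s := by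
    intro s hs
    have : Invertible (s⁻¹) := invertibleOfNonzero (inv_ne_zero hs)
    have h2 := Polynomial.eval₂_reverse_mul_pow (RingHom.id ℂ) (s⁻¹) Q
    simp only [invOf_eq_inv, inv_inv, Polynomial.eval₂_id] at h2
    rw [eval_mul, eval_pow, eval_X, h s hs, ← h2, mul_comm, mul_assoc, ← mul_pow,
      inv_mul_cancel₀ hs, one_pow, mul_one]
  have h3 : X ^ Q.natDegree * P = Q.reverse := by
    apply Polynomial.eq_of_infinite_eval_eq
    apply Set.Infinite.mono (s := {0}ᶜ)
    · intro s hs; exact h1 s hs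
    · exact (Set.finite_singleton (0 : ℂ)).infinite_compl
  by_cases hP : P = 0
  · simp [hP]
  · have h4 : (X ^ Q.natDegree * P).natDegree = Q.natDegree + P.natDegree := by
      rw [natDegree_mul (pow_ne_zero _ X_ne_zero) hP, natDegree_X_pow]
    rw [h3] at h4
    have h5 := Q.reverse_natDegree_le
    have h6 : P.natDegree = 0 := by omega
    rw [Polynomial.eq_C_of_natDegree_eq_zero h6]
    simp

end act

section embed

variable {n : ℕ}

/-- the `n × 2` matrix with columns the basis vectors `p`, `q` -/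
def incl2 (u : Fin 2 → Fin n) : Matrix (Fin n) (Fin 2) ℂ :=
  Matrix.of fun i a => if i = u a then 1 else 0

theorem incl2_mul (u : Fin 2 → Fin n) (hu : Function.Injective u) :
    (incl2 u).transpose * incl2 u = 1 := by
  ext a b
  simp only [incl2, Matrix.mul_apply, Matrix.transpose_apply, Matrix.of_apply, Matrix.one_apply]
  simp [hu.eq_iff, eq_comm]

/-- embedding of `2 × 2` matrices -/
noncomputable def emb2 (u : Fin 2 → Fin n) (X : Matrix (Fin 2) (Fin 2) ℂ) : Matrix (Fin n) (Fin n) ℂ :=
  1 + incl2 u * (X - 1) * (incl2 u).transpose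

theorem emb2_mul (u : Fin 2 → Fin n) (hu : Function.Injective u)
    (X Y : Matrix (Fin 2) (Fin 2) ℂ) : emb2 u (X * Y) = emb2 u X * emb2 u Y := by
  have h : incl2 u * (X - 1) * (incl2 u).transpose * (incl2 u * (Y - 1) * (incl2 u).transpose) =
      incl2 u * ((X - 1) * (Y - 1)) * (incl2 u).transpose := by
    calc _ = incl2 u * (X - 1) * ((incl2 u).transpose * incl2 u) * (Y - 1) *
          (incl2 u).transpose := by simp only [Matrix.mul_assoc]
      _ = _ := by rw [incl2_mul u hu]; simp only [Matrix.mul_assoc, Matrix.mul_one]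
  unfold emb2
  rw [mul_add, add_mul, add_mul, h, one_mul, mul_one, one_mul]
  have h2 : X * Y - 1 = (X - 1) + (Y - 1) + (X - 1) * (Y - 1) := by noncomm_ring
  rw [h2]
  simp only [Matrix.mul_add, Matrix.add_mul]
  abel

theorem emb2_apply (u : Fin 2 → Fin n) (X : Matrix (Fin 2) (Fin 2) ℂ) (i j : Fin n) :
    emb2 u X i j = (1 : Matrix (Fin n) (Fin n) ℂ) i j +
      ∑ a : Fin 2, ∑ b : Fin 2, (if i = u a then (1 : ℂ) else 0) * (X - 1) a b *
        (if j = u b then (1 : ℂ) else 0) := by
  simp only [emb2, Matrix.add_apply, Matrix.mul_apply, incl2, Matrix.of_apply,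
    Matrix.transpose_apply, Finset.sum_mul]
  rw [Finset.sum_comm]

theorem emb2_lower (u : Fin 2 → Fin n) (s : ℂ) :
    emb2 u !![1, 0; s, 1] = 1 + s • Matrix.single (u 1) (u 0) (1 : ℂ) := by
  ext i j
  rw [emb2_apply]
  simp only [Fin.sum_univ_two, Matrix.sub_apply, Matrix.add_apply, Matrix.smul_apply,
    Matrix.single_apply, smul_eq_mul]
  simp only [Matrix.of_apply, Matrix.cons_val', Matrix.cons_val_zero, Matrix.cons_val_one,
    Matrix.cons_val_fin_one, Matrix.one_apply]
  by_cases h1 : i = u 1 <;> by_cases h2 : j = u 0 <;> simp [h1, h2, eq_comm]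

theorem emb2_upper (u : Fin 2 → Fin n) (s : ℂ) :
    emb2 u !![1, s; 0, 1] = 1 + s • Matrix.single (u 0) (u 1) (1 : ℂ) := by
  ext i j
  rw [emb2_apply]
  simp only [Fin.sum_univ_two, Matrix.sub_apply, Matrix.add_apply, Matrix.smul_apply,
    Matrix.single_apply, smul_eq_mul]
  simp only [Matrix.of_apply, Matrix.cons_val', Matrix.cons_val_zero, Matrix.cons_val_one,
    Matrix.cons_val_fin_one, Matrix.one_apply]
  by_cases h1 : i = u 0 <;> by_cases h2 : j = u 1 <;> simp [h1, h2, eq_comm]

theorem emb2_diag (u : Fin 2 → Fin n) (hu : Function.Injective u) (s r : ℂ) :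
    emb2 u !![s, 0; 0, r] =
      Matrix.diagonal (fun i => if i = u 0 then s else if i = u 1 then r else 1) := by
  have h01 : u 1 ≠ u 0 := fun h => by simpa using hu h
  ext i j
  rw [emb2_apply]
  simp only [Fin.sum_univ_two, Matrix.sub_apply, Matrix.diagonal_apply]
  simp only [Matrix.of_apply, Matrix.cons_val', Matrix.cons_val_zero, Matrix.cons_val_one,
    Matrix.cons_val_fin_one, Matrix.one_apply]
  by_cases hij : i = j
  · subst hij
    by_cases h1 : i = u 0
    · subst h1; simp [h01.symm]
    · by_cases h2 : i = u 1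
      · subst h2; simp [h01]
      · simp [h1, h2]
  · by_cases h1 : i = u 0
    · have : j ≠ u 0 := fun h => hij (h1.trans h.symm)
      simp [hij, this]
      intro h3 h4
      exact absurd (h4.trans h3.symm) hij
    · by_cases h2 : i = u 1
      · have : j ≠ u 1 := fun h => hij (h2.trans h.symm)
        simp [hij, this]
        intro h3 h4
        exact absurd h4 h1
      · simp [h1, h2, hij]

end embed

section semi

variable {A : Type} [Fintype A] [DecidableEq A] {n d : ℕ}

/-- `c` is semi-invariant of weight `det ^ d` under invertible upper triangular matrices -/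
def BSemi (d : ℕ) (c : (A → Fin n) → ℂ) : Prop :=
  ∀ G : Matrix (Fin n) (Fin n) ℂ, (∀ i j, j < i → G i j = 0) → (∀ i, G i i ≠ 0) →
    act G c = ((∏ i, G i i) ^ d) • c

theorem BSemi.upper {c : (A → Fin n) → ℂ} (hc : BSemi d c) {p q : Fin n} (hpq : p < q) (s : ℂ) :
    act (1 + s • Matrix.single p q (1 : ℂ)) c = c := by
  have h1 : ∀ i, (1 + s • Matrix.single p q (1 : ℂ) : Matrix (Fin n) (Fin n) ℂ) i i = 1 := by
    intro i
    simp only [Matrix.add_apply, Matrix.smul_apply, Matrix.one_apply_eq, Matrix.single_apply]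
    rw [if_neg (by rintro ⟨rfl, rfl⟩; exact lt_irrefl _ hpq)]
    simp
  have := hc (1 + s • Matrix.single p q (1 : ℂ)) ?_ ?_
  · rw [this]; simp only [h1]; simp
  · intro i j hij
    simp only [Matrix.add_apply, Matrix.smul_apply, Matrix.one_apply_ne (ne_of_gt hij),
      Matrix.single_apply]
    rw [if_neg (by rintro ⟨rfl, rfl⟩; exact lt_asymm hpq hij)]
    simp
  · intro i; rw [h1]; exact one_ne_zero

theorem BSemi.lower {c : (A → Fin n) → ℂ} (hc : BSemi d c) {p q : Fin n} (hpq : p < q) (s : ℂ) :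
    act (1 + s • Matrix.single q p (1 : ℂ)) c = c := by
  set u : Fin 2 → Fin n := ![p, q] with hu
  have hu0 : u 0 = p := rfl
  have hu1 : u 1 = q := rfl
  have huinj : Function.Injective u := by
    intro a b hab
    fin_cases a <;> fin_cases b <;> simp_all [ne_of_lt hpq]
  funext I
  obtain ⟨P, hP⟩ := act_poly (1 : Matrix (Fin n) (Fin n) ℂ) (Matrix.single q p (1 : ℂ)) c I
  set c₁ := act (emb2 u !![0, -1; 1, 0]) c with hc₁
  obtain ⟨Q, hQ⟩ := act_poly (1 : Matrix (Fin n) (Fin n) ℂ) (Matrix.single p q (1 : ℂ)) c₁ I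
  have key : ∀ s : ℂ, s ≠ 0 → P.eval s = Q.eval s⁻¹ := by
    intro s hs
    rw [hP, hQ]
    have h1 : emb2 u !![1, 0; s, 1] = emb2 u !![1, s⁻¹; 0, 1] * (emb2 u !![0, -1; 1, 0] *
        (emb2 u !![s, 0; 0, s⁻¹] * emb2 u !![1, s⁻¹; 0, 1])) := by
      rw [← emb2_mul u huinj, ← emb2_mul u huinj, ← emb2_mul u huinj]
      congr 1
      ext a b
      fin_cases a <;> fin_cases b <;> simp [Matrix.mul_apply, Fin.sum_univ_two, hs]
    have h2 := emb2_lower u s
    have h3 := emb2_upper u s⁻¹
    rw [hu0, hu1] at h2 h3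
    rw [← h2, h1, act_mul, act_mul, act_mul, h3, hc.upper hpq]
    have h4 : act (emb2 u !![s, 0; 0, s⁻¹]) c = c := by
      rw [emb2_diag u huinj]
      have h5 := hc (Matrix.diagonal (fun i => if i = u 0 then s else if i = u 1 then s⁻¹ else 1))
        (fun i j hij => Matrix.diagonal_apply_ne _ (ne_of_gt hij)) (by
          intro i
          rw [Matrix.diagonal_apply_eq]
          split_ifs <;> simp [hs])
      rw [h5]
      have h6 : ∏ i : Fin n, (Matrix.diagonal
          (fun i => if i = u 0 then s else if i = u 1 then s⁻¹ else (1 : ℂ))) i i = 1 := by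
        simp only [Matrix.diagonal_apply_eq]
        rw [← Finset.mul_prod_erase Finset.univ _ (Finset.mem_univ (u 0)),
          ← Finset.mul_prod_erase (Finset.univ.erase (u 0)) _
            (Finset.mem_erase.2 ⟨fun h => by simpa using huinj h, Finset.mem_univ (u 1)⟩)]
        rw [Finset.prod_eq_one]
        · have : u 1 ≠ u 0 := fun h => by simpa using huinj h
          simp [this, hs]
        · intro i hi
          simp only [Finset.mem_erase] at hi
          simp [hi.1, hi.2.1]
      rw [h6]; simp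
    rw [h4]
  have h7 := poly_const P Q key s
  rw [hP, hP] at h7
  rw [h7, zero_smul, add_zero, act_one]

/-- `c` is semi-invariant of weight `det ^ d` under all invertible matrices -/
theorem BSemi.gl {c : (A → Fin n) → ℂ} (hc : BSemi d c) (G : Matrix (Fin n) (Fin n) ℂ)
    (hG : G.det ≠ 0) : act G c = (G.det ^ d) • c := by
  refine Matrix.diagonal_transvection_induction_of_det_ne_zero
    (fun G => act G c = (G.det ^ d) • c) G hG ?_ ?_ ?_
  · intro D hD
    rw [Matrix.det_diagonal] at hD ⊢
    have h1 := hc (Matrix.diagonal D) (fun i j hij => Matrix.diagonal_apply_ne _ (ne_of_gt hij))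
      (fun i => by
        rw [Matrix.diagonal_apply_eq]
        exact (Finset.prod_ne_zero_iff.1 hD) i (Finset.mem_univ i))
    rw [h1]
    simp only [Matrix.diagonal_apply_eq]
  · intro t
    rw [Matrix.TransvectionStruct.det, one_pow, one_smul]
    have h1 : t.toMatrix = 1 + t.c • Matrix.single t.i t.j (1 : ℂ) := by
      rw [Matrix.TransvectionStruct.toMatrix, Matrix.transvection, Matrix.smul_single, smul_eq_mul,
        mul_one]
    rw [h1]
    rcases lt_or_gt_of_ne t.hij with h | h
    · exact hc.upper h _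
    · exact hc.lower h _
  · intro X Y _ _ hX hY
    rw [act_mul, hY, act_smul, hX, Matrix.det_mul, mul_pow, smul_smul, mul_comm]

end semi

section odd

variable {d n : ℕ}

/-- symmetric under permutations of the factors inside the blocks, the same for all blocks -/
theorem coord_zero {c : (Fin d × Fin n → Fin n) → ℂ} (hc : BSemi d c) (hd : Odd d) (hn : 2 ≤ n)
    (hs : ∀ (ρ : Equiv.Perm (Fin n)) (I : Fin d × Fin n → Fin n),
      c (fun a => I (a.1, ρ a.2)) = c I) :
    c (fun a => a.2) = 0 := by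
  obtain ⟨m, rfl⟩ : ∃ m, n = m + 2 := ⟨n - 2, by omega⟩
  set ρ : Equiv.Perm (Fin (m + 2)) := Equiv.swap 0 1 with hρ
  have h1 := congrFun (hc.gl (ρ.permMatrix ℂ) (by
    rw [Matrix.det_permutation, hρ, Equiv.Perm.sign_swap (by simp)]; simp)) (fun a => a.2)
  rw [Matrix.det_permutation, hρ, Equiv.Perm.sign_swap (by simp)] at h1
  rw [← hρ] at h1
  have h2 : act (ρ.permMatrix ℂ) c (fun a => a.2) = c (fun a => ρ a.2) := by
    unfold act
    rw [Finset.sum_eq_single (fun a : Fin d × Fin (m + 2) => ρ a.2)]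
    · rw [Finset.prod_eq_one, one_mul]
      intro a _
      simp [Equiv.Perm.permMatrix, PEquiv.toMatrix_apply]
    · intro J _ hJ
      obtain ⟨a, ha⟩ := Function.ne_iff.1 hJ
      rw [Finset.prod_eq_zero (Finset.mem_univ a), zero_mul]
      simp [Equiv.Perm.permMatrix, PEquiv.toMatrix_apply, Ne.symm ha]
    · simp
  have h3 := hs ρ (fun a => a.2)
  rw [h2] at h1
  simp only at h3
  rw [h3] at h1
  simp only [Units.val_neg, Units.val_one, Int.cast_neg, Int.cast_one, Pi.smul_apply,
    smul_eq_mul, hd.neg_one_pow] at h1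
  have h4 : 2 * c (fun a => a.2) = 0 := by linear_combination h1
  simpa using h4

theorem eval_zero {c : (Fin d × Fin n → Fin n) → ℂ} (hc : BSemi d c) (hd : Odd d) (hn : 2 ≤ n)
    (hs : ∀ (ρ : Equiv.Perm (Fin n)) (I : Fin d × Fin n → Fin n),
      c (fun a => I (a.1, ρ a.2)) = c I) :
    (∑ J : Fin d × Fin n → Fin n, (∏ a, MvPolynomial.X (a.2, J a)) * MvPolynomial.C (c J) :
      MvPolynomial (Fin n × Fin n) ℂ) = 0 := by
  set p : MvPolynomial (Fin n × Fin n) ℂ :=
    ∑ J : Fin d × Fin n → Fin n, (∏ a, MvPolynomial.X (a.2, J a)) * MvPolynomial.C (c J) with hp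
  have hc0 := coord_zero hc hd hn hs
  have h1 : p * (Matrix.mvPolynomialX (Fin n) (Fin n) ℂ).det = 0 := by
    apply MvPolynomial.funext
    intro x
    set G : Matrix (Fin n) (Fin n) ℂ := Matrix.of fun i j => x (i, j) with hG
    have h2 : MvPolynomial.eval x (Matrix.mvPolynomialX (Fin n) (Fin n) ℂ).det = G.det := by
      rw [RingHom.map_det]
      congr 1
      ext i j
      simp [hG, Matrix.mvPolynomialX]
    have h3 : MvPolynomial.eval x p = act G c (fun a => a.2) := by
      simp [hp, act, hG]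
    rw [map_mul, h2, h3, map_zero]
    by_cases hdet : G.det = 0
    · rw [hdet, mul_zero]
    · rw [hc.gl G hdet]
      simp [hc0]
  rcases mul_eq_zero.1 h1 with h | h
  · exact h
  · exact absurd h (Matrix.det_mvPolynomialX_ne_zero (Fin n) ℂ)

/-- the monomial of an index function -/
noncomputable def mono (I : Fin d × Fin n → Fin n) : (Fin n × Fin n) →₀ ℕ :=
  ∑ a, Finsupp.single (a.2, I a) 1

theorem sum_mono_zero {c : (Fin d × Fin n → Fin n) → ℂ} (hc : BSemi d c) (hd : Odd d)
    (hn : 2 ≤ n)
    (hs : ∀ (ρ : Equiv.Perm (Fin n)) (I : Fin d × Fin n → Fin n),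
      c (fun a => I (a.1, ρ a.2)) = c I) (m : (Fin n × Fin n) →₀ ℕ) :
    ∑ J : Fin d × Fin n → Fin n, (if mono J = m then c J else 0) = 0 := by
  have h1 := congrArg (MvPolynomial.coeff m) (eval_zero hc hd hn hs)
  rw [MvPolynomial.coeff_sum, MvPolynomial.coeff_zero] at h1
  refine Eq.trans (Finset.sum_congr rfl fun J _ => ?_) h1
  have h2 : (∏ a, MvPolynomial.X (a.2, J a) : MvPolynomial (Fin n × Fin n) ℂ) =
      MvPolynomial.monomial (mono J) 1 := by
    unfold mono
    rw [MvPolynomial.monomial_sum_one]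
    rfl
  rw [h2, mul_comm, MvPolynomial.coeff_C_mul, MvPolynomial.coeff_monomial]
  split_ifs <;> simp

/-- the permutation of the places permuting the `i`-th coordinate, depending on `j` -/
def colPerm (τ : Fin n → Equiv.Perm (Fin d)) : Equiv.Perm (Fin d × Fin n) where
  toFun a := (τ a.2 a.1, a.2)
  invFun a := ((τ a.2).symm a.1, a.2)
  left_inv a := by simp
  right_inv a := by simp

theorem mono_colPerm (τ : Fin n → Equiv.Perm (Fin d)) (I : Fin d × Fin n → Fin n) :
    mono (I ∘ colPerm τ) = mono I := by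
  unfold mono
  rw [← Equiv.sum_comp (colPerm τ) (fun a => Finsupp.single (a.2, I a) 1)]
  rfl

theorem exists_perm {X Y : Type} [Fintype X] [DecidableEq X] [DecidableEq Y] (f g : X → Y)
    (h : ∀ y, (Finset.univ.filter fun x => f x = y).card = (Finset.univ.filter fun x => g x = y).card) :
    ∃ σ : Equiv.Perm X, ∀ x, f x = g (σ x) := by
  have h1 : ∀ y, Nonempty ({x // f x = y} ≃ {x // g x = y}) := by
    intro y
    rw [← Fintype.card_eq, Fintype.card_subtype, Fintype.card_subtype]
    exact h y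
  let e : ∀ y, ({x // f x = y} ≃ {x // g x = y}) := fun y => (h1 y).some
  refine ⟨(Equiv.sigmaFiberEquiv f).symm.trans
    ((Equiv.sigmaCongrRight e).trans (Equiv.sigmaFiberEquiv g)), fun x => ?_⟩
  exact ((e (f x)) ⟨x, rfl⟩).2.symm

theorem exists_colPerm {I J : Fin d × Fin n → Fin n} (h : mono J = mono I) :
    ∃ τ : Fin n → Equiv.Perm (Fin d), J = I ∘ colPerm τ := by
  have h1 : ∀ j : Fin n, ∃ σ : Equiv.Perm (Fin d), ∀ i, J (i, j) = I (σ i, j) := by
    intro j
    apply exists_perm (fun i => J (i, j)) (fun i => I (i, j))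
    intro k
    have h2 := DFunLike.congr_fun h (j, k)
    have h3 : ∀ K : Fin d × Fin n → Fin n, mono K (j, k) =
        (Finset.univ.filter fun i => K (i, j) = k).card := by
      intro K
      unfold mono
      rw [Finsupp.finsetSum_apply, Fintype.sum_prod_type, Finset.card_filter]
      refine Finset.sum_congr rfl fun i _ => ?_
      rw [Finset.sum_eq_single j]
      · rw [Finsupp.single_apply]; simp
      · intro j' _ hj'
        rw [Finsupp.single_apply, if_neg]
        simp [hj']
      · simp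
    rw [← h3, ← h3, h2]
  choose τ hτ using h1
  exact ⟨τ, funext fun a => hτ a.2 a.1⟩

theorem colSum_zero {c : (Fin d × Fin n → Fin n) → ℂ} (hc : BSemi d c) (hd : Odd d) (hn : 2 ≤ n)
    (hs : ∀ (ρ : Equiv.Perm (Fin n)) (I : Fin d × Fin n → Fin n),
      c (fun a => I (a.1, ρ a.2)) = c I) (I : Fin d × Fin n → Fin n) :
    ∑ τ : Fin n → Equiv.Perm (Fin d), c (I ∘ colPerm τ) = 0 := by
  classical
  set S : (Fin d × Fin n → Fin n) → ℂ := fun I => ∑ τ : Fin n → Equiv.Perm (Fin d),
    c (I ∘ colPerm τ) with hS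
  have h1 : ∀ (I : Fin d × Fin n → Fin n) (τ : Fin n → Equiv.Perm (Fin d)),
      S (I ∘ colPerm τ) = S I := by
    intro I τ
    simp only [hS]
    rw [← Equiv.sum_comp (Equiv.mulLeft τ) (fun σ => c (I ∘ colPerm σ))]
    refine Finset.sum_congr rfl fun σ _ => ?_
    congr 1
  have h2 : ∑ J : Fin d × Fin n → Fin n, (if mono J = mono I then S J else 0) = 0 := by
    have h3 : ∀ J : Fin d × Fin n → Fin n, (if mono J = mono I then S J else 0) =
        ∑ τ : Fin n → Equiv.Perm (Fin d), if mono J = mono I then c (J ∘ colPerm τ) else 0 := by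
      intro J
      split_ifs with h
      · rfl
      · simp
    simp only [h3]
    rw [Finset.sum_comm]
    refine Finset.sum_eq_zero fun τ _ => ?_
    have h7 := sum_mono_zero hc hd hn hs (mono I)
    rw [← Equiv.sum_comp (Equiv.arrowCongr (colPerm τ).symm (Equiv.refl (Fin n)))
      (fun J => if mono J = mono I then c J else 0)] at h7
    refine Eq.trans (Finset.sum_congr rfl fun J _ => ?_) h7
    have h4 : (Equiv.arrowCongr (colPerm τ).symm (Equiv.refl (Fin n))) J = J ∘ colPerm τ := by
      ext a; simp [Equiv.arrowCongr]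
    rw [h4, mono_colPerm]
  have h5 : ∀ J : Fin d × Fin n → Fin n, (if mono J = mono I then S J else 0) =
      if mono J = mono I then S I else 0 := by
    intro J
    split_ifs with h
    · obtain ⟨τ, rfl⟩ := exists_colPerm h
      exact h1 I τ
    · rfl
  simp only [h5] at h2
  rw [← Finset.sum_filter, Finset.sum_const, nsmul_eq_mul] at h2
  rcases mul_eq_zero.1 h2 with h | h
  · exfalso
    have h6 : 0 < (Finset.univ.filter fun J : Fin d × Fin n → Fin n => mono J = mono I).card :=
      Finset.card_pos.2 ⟨I, by simp⟩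
    rw [Nat.cast_eq_zero] at h
    omega
  · exact h

end odd

end Pool.Agent.TH13.HHH
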