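import Mathlib

/-! Job 348 (KAC-1): antisymmetric solutions of a palindromic linear recursion span at most `N`
dimensions. -/

set_option autoImplicit false
namespace Pool.Agent.TH185

namespace J348

theorem mem_all {F V : Type*} [Field F] [AddCommGroup V] [Module F V] (N : ℕ)
    (c : ℕ → F) (hc0 : c 0 = 1) (hcN : c (2 * N) = 1) (m : ℤ → V) (W : Submodule F V) (k : ℤ)
    (hbase : ∀ a : ℤ, k + 1 - N ≤ a → a ≤ k + N → m a ∈ W)
    (hrec : ∀ a, ∑ j ∈ Finset.range (2 * N + 1), c j • m (a + j) = 0) (n : ℕ) :
    ∀ a : ℤ, k + 1 - N - n ≤ a → a ≤ k + N + n → m a ∈ W := by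
  induction n with
  | zero =>
    intro a h1 h2
    exact hbase a (by simpa using h1) (by simpa using h2)
  | succ n ih =>
    intro a h1 h2
    by_cases hlow : a < k + 1 - N - n
    · have ha : a = k - N - n := by push_cast at h1; omega
      have h := hrec a
      rw [Finset.sum_range_succ'] at h
      simp only [Nat.cast_zero, add_zero, hc0, one_smul] at h
      rw [add_eq_zero_iff_neg_eq'] at h
      rw [← neg_neg (m a), h]
      refine W.neg_mem (W.sum_mem fun j hj => W.smul_mem _ (ih _ ?_ ?_))
      · push_cast; omega
      · have := Finset.mem_range.1 hj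
        push_cast; omega
    · by_cases hhigh : k + N + n < a
      · have ha : a = k + N + n + 1 := by push_cast at h2; omega
        have h := hrec (a - 2 * N)
        rw [Finset.sum_range_succ, hcN, one_smul] at h
        have e : a - 2 * (N : ℤ) + ((2 * N : ℕ) : ℤ) = a := by push_cast; ring
        rw [e, add_eq_zero_iff_neg_eq] at h
        rw [← h]
        refine W.neg_mem (W.sum_mem fun j hj => W.smul_mem _ (ih _ ?_ ?_))
        · omega
        · have := Finset.mem_range.1 hj
          omega
      · exact ih a (by omega) (by omega)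

end J348

theorem palindromic {F V : Type*} [Field F] [CharZero F] [AddCommGroup V] [Module F V] (N : ℕ)
    (c : ℕ → F) (hc0 : c 0 = 1) (hpal : ∀ j ≤ 2 * N, c j = c (2 * N - j)) (d : ℤ) (m : ℤ → V)
    (hm : ∀ a, m (d - a) = -m a)
    (hrec : ∀ a, ∑ j ∈ Finset.range (2 * N + 1), c j • m (a + j) = 0) :
    FiniteDimensional F (Submodule.span F (Set.range m)) ∧
      Module.finrank F (Submodule.span F (Set.range m)) ≤ N := by
  classical
  have hcN : c (2 * N) = 1 := by
    rw [hpal (2 * N) le_rfl, Nat.sub_self, hc0]
  set k : ℤ := d / 2 with hk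
  set S : Finset V := (Finset.range N).image (fun i : ℕ => m (k + 1 + i)) with hS
  set W : Submodule F V := Submodule.span F (S : Set V) with hW
  have hup : ∀ a : ℤ, k + 1 ≤ a → a ≤ k + N → m a ∈ W := by
    intro a h1 h2
    refine Submodule.subset_span ?_
    rw [hS, Finset.mem_coe, Finset.mem_image]
    refine ⟨(a - (k + 1)).toNat, ?_, ?_⟩
    · rw [Finset.mem_range]; omega
    · congr 1; omega
  have hbase : ∀ a : ℤ, k + 1 - N ≤ a → a ≤ k + N → m a ∈ W := by
    intro a h1 h2
    by_cases h : k + 1 ≤ a
    · exact hup a h h2
    · have hneg : m a = - m (d - a) := by rw [hm a, neg_neg]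
      by_cases hh : d - a = a
      · have h0 : m a = 0 := by
          have h3 := hm a
          rw [hh] at h3
          have h4 : (2 : F) • m a = 0 := by
            rw [two_smul]
            nth_rewrite 1 [h3]
            exact neg_add_cancel _
          rcases smul_eq_zero.1 h4 with h5 | h5
          · exact absurd h5 two_ne_zero
          · exact h5
        rw [h0]; exact W.zero_mem
      · rw [hneg]
        refine W.neg_mem (hup _ ?_ ?_)
        · omega
        · omega
  have hall : ∀ a, m a ∈ W := by
    intro a
    have := J348.mem_all N c hc0 hcN m W k hbase hrec ((a - k).natAbs + 1)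
    have h1 := le_abs_self (a - k)
    have h2 := neg_abs_le (a - k)
    refine this a ?_ ?_ <;> push_cast <;> omega
  have hle : Submodule.span F (Set.range m) ≤ W := by
    rw [Submodule.span_le]
    rintro _ ⟨a, rfl⟩
    exact hall a
  have hfW : FiniteDimensional F W := by
    rw [hW]; exact FiniteDimensional.span_finset F S
  have hfin : FiniteDimensional F (Submodule.span F (Set.range m)) :=
    Submodule.finiteDimensional_of_le hle
  refine ⟨hfin, ?_⟩
  calc Module.finrank F (Submodule.span F (Set.range m)) ≤ Module.finrank F W :=
        Submodule.finrank_mono hle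
    _ ≤ S.card := finrank_span_finset_le_card S
    _ ≤ (Finset.range N).card := Finset.card_image_le
    _ = N := Finset.card_range N

end Pool.Agent.TH185
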