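import Mathlib

/-! Job 349 (KAC-2): effective divisors stable under a permutation: finiteness and the orbit
recursion. -/

set_option autoImplicit false
namespace Pool.Agent.TH185

namespace J349

open Finset Function

variable {X : Type*}

/-- `P + ψ P + ... + ψ^(r-1) P` -/
noncomputable def cyc (ψ : Equiv.Perm X) (r : ℕ) (P : X) : X →₀ ℕ :=
  ∑ t ∈ range r, Finsupp.single ((ψ ^ t) P) 1

theorem stab_iff (ψ : Equiv.Perm X) (D : X →₀ ℕ) : D.mapDomain ψ = D ↔ ∀ x, D (ψ x) = D x := by
  constructor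
  · intro h x
    conv_lhs => rw [← h]
    exact Finsupp.mapDomain_apply ψ.injective D x
  · intro h
    ext y
    obtain ⟨x, rfl⟩ := ψ.surjective y
    rw [Finsupp.mapDomain_apply ψ.injective, h]

theorem stab_pow (ψ : Equiv.Perm X) (D : X →₀ ℕ) (h : ∀ x, D (ψ x) = D x) (n : ℕ) (x : X) :
    D ((ψ ^ n) x) = D x := by
  induction n with
  | zero => simp
  | succ n ih => rw [pow_succ', Equiv.Perm.mul_apply, h, ih]

theorem degree_cyc (ψ : Equiv.Perm X) (r : ℕ) (P : X) : (cyc ψ r P).degree = r := by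
  simp [cyc, map_sum, Finsupp.degree_single]

open Classical in
theorem cyc_apply (ψ : Equiv.Perm X) (r : ℕ) (P x : X) :
    cyc ψ r P x = ((range r).filter (fun t => (ψ ^ t) P = x)).card := by
  simp [cyc, Finsupp.finsetSum_apply, Finsupp.single_apply]

theorem cyc_stab (ψ : Equiv.Perm X) (r : ℕ) (P : X) (h : (ψ ^ r) P = P) :
    (cyc ψ r P).mapDomain ψ = cyc ψ r P := by
  unfold cyc
  rw [Finsupp.mapDomain_finsetSum]
  simp only [Finsupp.mapDomain_single]
  have h1 : ∑ t ∈ range r, Finsupp.single (ψ ((ψ ^ t) P)) 1 + Finsupp.single ((ψ ^ 0) P) 1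
      = ∑ t ∈ range r, Finsupp.single ((ψ ^ t) P) 1 + Finsupp.single ((ψ ^ r) P) 1 := by
    rw [← Finset.sum_range_succ, Finset.sum_range_succ' _ r]
    simp [pow_succ']
  rw [h, pow_zero] at h1
  exact add_right_cancel h1

theorem period_dvd (ψ : Equiv.Perm X) (P : X) (t : ℕ) :
    (ψ ^ t) P = P ↔ minimalPeriod ψ P ∣ t := by
  rw [← Function.isPeriodicPt_iff_minimalPeriod_dvd, Function.IsPeriodicPt, Function.IsFixedPt,
    Equiv.Perm.iterate_eq_pow]

theorem cyc_self (ψ : Equiv.Perm X) (P : X) (hs : 0 < minimalPeriod ψ P) (i : ℕ) :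
    cyc ψ (minimalPeriod ψ P * i) P P = i := by
  classical
  rw [cyc_apply]
  set s := minimalPeriod ψ P with hsdef
  have : (range (s * i)).filter (fun t => (ψ ^ t) P = P) = (range i).image (fun k => s * k) := by
    ext t
    simp only [mem_filter, Finset.mem_range, mem_image]
    rw [period_dvd, ← hsdef]
    constructor
    · rintro ⟨h1, ⟨k, rfl⟩⟩
      exact ⟨k, Nat.lt_of_mul_lt_mul_left h1, rfl⟩
    · rintro ⟨k, hk, rfl⟩
      exact ⟨Nat.mul_lt_mul_of_pos_left hk hs, dvd_mul_right _ _⟩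
  rw [this, Finset.card_image_of_injective _ (fun a b h => Nat.eq_of_mul_eq_mul_left hs h),
    card_range]

theorem cyc_le_iff (ψ : Equiv.Perm X) (P : X) (hs : 0 < minimalPeriod ψ P) (i : ℕ)
    (D : X →₀ ℕ) (hD : ∀ x, D (ψ x) = D x) :
    cyc ψ (minimalPeriod ψ P * i) P ≤ D ↔ i ≤ D P := by
  classical
  constructor
  · intro h
    have := h P
    rwa [cyc_self ψ P hs i] at this
  · intro h x
    by_cases hx : ∃ u : ℕ, (ψ ^ u) P = x
    · obtain ⟨u, rfl⟩ := hx
      have hst := (stab_iff ψ _).1 (cyc_stab ψ (minimalPeriod ψ P * i) P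
        ((period_dvd ψ P _).2 (dvd_mul_right _ _)))
      rw [stab_pow ψ _ hst, stab_pow ψ D hD, cyc_self ψ P hs i]
      exact h
    · rw [cyc_apply]
      rw [Finset.filter_false_of_mem]
      · simp
      · intro t _ ht
        exact hx ⟨t, ht⟩

open Classical in
theorem count (ψ : Equiv.Perm X) (P : X) (hs : 0 < minimalPeriod ψ P) (j : ℕ)
    (D : X →₀ ℕ) (hD : ∀ x, D (ψ x) = D x) (hj : D.degree = j) :
    ((Icc 1 j).filter (fun r => (ψ ^ r) P = P ∧ cyc ψ r P ≤ D)).card = D P := by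
  set s := minimalPeriod ψ P with hsdef
  have : (Icc 1 j).filter (fun r => (ψ ^ r) P = P ∧ cyc ψ r P ≤ D)
      = (Icc 1 (D P)).image (fun k => s * k) := by
    ext r
    simp only [mem_filter, Finset.mem_Icc, mem_image]
    rw [period_dvd, ← hsdef]
    constructor
    · rintro ⟨⟨h1, h2⟩, ⟨k, rfl⟩, h3⟩
      refine ⟨k, ⟨?_, ?_⟩, rfl⟩
      · rcases Nat.eq_zero_or_pos k with rfl | hk
        · simp at h1
        · exact hk
      · exact (cyc_le_iff ψ P hs k D hD).1 h3
    · rintro ⟨k, ⟨h1, h2⟩, rfl⟩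
      have h3 := (cyc_le_iff ψ P hs k D hD).2 h2
      refine ⟨⟨Nat.mul_pos hs h1, ?_⟩, dvd_mul_right _ _, h3⟩
      have := Finsupp.degree_mono h3
      rwa [degree_cyc, hj] at this
  rw [this, Finset.card_image_of_injective _ (fun a b h => Nat.eq_of_mul_eq_mul_left hs h)]
  simp

theorem mem_support_fix (ψ : Equiv.Perm X) (P : X) (j : ℕ)
    (D : X →₀ ℕ) (hD : ∀ x, D (ψ x) = D x) (hj : D.degree = j) (hP : D P ≠ 0) :
    (ψ ^ j.factorial) P = P := by
  classical
  by_contra hne
  have hinj : Set.InjOn (fun t : ℕ => (ψ ^ t) P) (range (j + 1)) := by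
    have key : ∀ a b : ℕ, a < b → b < j + 1 → (ψ ^ a) P = (ψ ^ b) P → False := by
      intro a b hab hb h
      apply hne
      rw [period_dvd]
      have h1 : (ψ ^ (b - a)) P = P := by
        have : (ψ ^ a) ((ψ ^ (b - a)) P) = (ψ ^ a) P := by
          rw [← Equiv.Perm.mul_apply, ← pow_add, Nat.add_sub_cancel' hab.le, h]
        exact (ψ ^ a).injective this
      exact ((period_dvd ψ P _).1 h1).trans (Nat.dvd_factorial (by omega) (by omega))
    intro a ha b hb h
    rw [Finset.mem_coe, Finset.mem_range] at ha hb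
    rcases lt_trichotomy a b with h1 | h1 | h1
    · exact (key a b h1 hb h).elim
    · exact h1
    · exact (key b a h1 ha h.symm).elim
  have hle : cyc ψ (j + 1) P ≤ D := by
    intro x
    rw [cyc_apply]
    by_cases hx : ∃ u : ℕ, (ψ ^ u) P = x
    · obtain ⟨u, hu⟩ := hx
      have h1 : D x = D P := by rw [← hu]; exact stab_pow ψ D hD u P
      rw [h1]
      refine le_trans ?_ (Nat.one_le_iff_ne_zero.2 hP)
      rw [Finset.card_le_one]
      intro a ha b hb
      rw [mem_filter] at ha hb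
      exact hinj (Finset.mem_coe.2 ha.1) (Finset.mem_coe.2 hb.1) (ha.2.trans hb.2.symm)
    · rw [Finset.filter_false_of_mem]
      · simp
      · intro t _ ht
        exact hx ⟨t, ht⟩
  have := Finsupp.degree_mono hle
  rw [degree_cyc, hj] at this
  omega

end J349

theorem finite_stable {X : Type*} (ψ : Equiv.Perm X) (hψ : ∀ n : ℕ, 0 < n → {x | (ψ ^ n) x = x}.Finite)
    (j : ℕ) : {D : X →₀ ℕ | D.degree = j ∧ D.mapDomain ψ = D}.Finite := by
  classical
  have hF := hψ j.factorial j.factorial_pos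
  refine (Finset.finite_toSet (hF.toFinset.finsupp fun _ => Finset.range (j + 1))).subset ?_
  rintro D ⟨hj, hD⟩
  rw [Finset.mem_coe, Finset.mem_finsupp_iff]
  refine ⟨fun P hP => ?_, fun P _ => ?_⟩
  · rw [Set.Finite.mem_toFinset]
    exact J349.mem_support_fix ψ P j D ((J349.stab_iff ψ D).1 hD) hj (Finsupp.mem_support_iff.1 hP)
  · rw [Finset.mem_range, ← hj]
    exact Nat.lt_succ_of_le (Finsupp.le_degree P D)

theorem orbit_recursion {X : Type*} (ψ : Equiv.Perm X)
    (hψ : ∀ n : ℕ, 0 < n → {x | (ψ ^ n) x = x}.Finite) (j : ℕ) :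
    j * {D : X →₀ ℕ | D.degree = j ∧ D.mapDomain ψ = D}.ncard =
      ∑ r ∈ Finset.Icc 1 j, {x | (ψ ^ r) x = x}.ncard *
        {D : X →₀ ℕ | D.degree = j - r ∧ D.mapDomain ψ = D}.ncard := by
  classical
  set T : ℕ → Finset (X →₀ ℕ) := fun k => (finite_stable ψ hψ k).toFinset with hT
  have hmemT : ∀ k D, D ∈ T k ↔ D.degree = k ∧ D.mapDomain ψ = D := by
    intro k D; simp [hT]
  have hTc : ∀ k, {D : X →₀ ℕ | D.degree = k ∧ D.mapDomain ψ = D}.ncard = (T k).card := by
    intro k; rw [Set.ncard_eq_toFinset_card _ (finite_stable ψ hψ k)]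
  set A : Finset X := (hψ j.factorial j.factorial_pos).toFinset with hA
  have hmemA : ∀ P, P ∈ A ↔ (ψ ^ j.factorial) P = P := by intro P; simp [hA]
  have hFr : ∀ r ∈ Finset.Icc 1 j, {x | (ψ ^ r) x = x}.ncard =
      (A.filter (fun P => (ψ ^ r) P = P)).card := by
    intro r hr
    rw [Finset.mem_Icc] at hr
    rw [← Set.ncard_coe_finset]
    congr 1
    ext P
    simp only [Set.mem_ofPred_eq, Finset.coe_filter, hmemA]
    constructor
    · intro h
      refine ⟨?_, h⟩
      rw [J349.period_dvd] at h ⊢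
      exact h.trans (Nat.dvd_factorial hr.1 hr.2)
    · exact fun h => h.2
  have hcard : ∀ r ∈ Finset.Icc 1 j, ∀ P, (ψ ^ r) P = P →
      (T (j - r)).card = ((T j).filter (fun D => J349.cyc ψ r P ≤ D)).card := by
    intro r hr P hP
    rw [Finset.mem_Icc] at hr
    have hcs := J349.cyc_stab ψ r P hP
    have : (T j).filter (fun D => J349.cyc ψ r P ≤ D) =
        (T (j - r)).image (fun D => D + J349.cyc ψ r P) := by
      ext D
      simp only [Finset.mem_filter, Finset.mem_image, hmemT]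
      constructor
      · rintro ⟨⟨h1, h2⟩, h3⟩
        refine ⟨D - J349.cyc ψ r P, ⟨?_, ?_⟩, tsub_add_cancel_of_le h3⟩
        · have h4 := congrArg Finsupp.degree (tsub_add_cancel_of_le h3)
          rw [map_add, J349.degree_cyc, h1] at h4
          omega
        · rw [J349.stab_iff] at h2 hcs ⊢
          intro x
          simp only [Finsupp.coe_tsub, Pi.sub_apply, h2, hcs]
      · rintro ⟨E, ⟨h1, h2⟩, rfl⟩
        refine ⟨⟨?_, ?_⟩, le_add_self⟩
        · rw [map_add, J349.degree_cyc, h1]; omega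
        · rw [Finsupp.mapDomain_add, h2, hcs]
    rw [this, Finset.card_image_of_injective _ (add_left_injective _)]
  rw [hTc]
  have hR : ∀ r ∈ Finset.Icc 1 j, {x | (ψ ^ r) x = x}.ncard *
        {D : X →₀ ℕ | D.degree = j - r ∧ D.mapDomain ψ = D}.ncard =
        ∑ P ∈ A, ∑ D ∈ T j, if ((ψ ^ r) P = P ∧ J349.cyc ψ r P ≤ D) then 1 else 0 := by
    intro r hr
    rw [hTc, hFr r hr, Finset.card_filter, Finset.sum_mul]
    refine Finset.sum_congr rfl fun P _ => ?_
    by_cases hP : (ψ ^ r) P = P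
    · rw [if_pos hP, one_mul, hcard r hr P hP, Finset.card_filter]
      refine Finset.sum_congr rfl fun D _ => ?_
      simp [hP]
    · simp [hP]
  rw [Finset.sum_congr rfl hR]
  have hL : j * (T j).card = ∑ D ∈ T j, ∑ P ∈ A, D P := by
    rw [mul_comm, ← smul_eq_mul, ← Finset.sum_const]
    refine Finset.sum_congr rfl fun D hD => ?_
    rw [hmemT] at hD
    rw [← hD.1, Finsupp.degree_apply]
    refine Finset.sum_subset ?_ ?_
    · intro P hP
      rw [hmemA]
      have := J349.mem_support_fix ψ P j D ((J349.stab_iff ψ D).1 hD.2) hD.1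
        (Finsupp.mem_support_iff.1 hP)
      exact this
    · intro P _ hP
      exact Finsupp.notMem_support_iff.1 hP
  rw [hL]
  rw [Finset.sum_comm]
  rw [Finset.sum_comm (s := Finset.Icc 1 j)]
  refine Finset.sum_congr rfl fun P hP => ?_
  rw [Finset.sum_comm (s := Finset.Icc 1 j)]
  refine Finset.sum_congr rfl fun D hD => ?_
  rw [hmemT] at hD
  have hs : 0 < Function.minimalPeriod ψ P := by
    rw [hmemA, J349.period_dvd] at hP
    exact Nat.pos_of_dvd_of_pos hP j.factorial_pos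
  rw [← Finset.card_filter]
  exact (J349.count ψ P hs j D ((J349.stab_iff ψ D).1 hD.2) hD.1).symm

end Pool.Agent.TH185
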